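import Mathlib

set_option autoImplicit false

open Filter Topology Set

namespace Pool.Agent.R231.VR

/-- the index map `ℕ → ℕ` with infinite fibres -/
def idx (m : ℕ) : ℕ := (Nat.unpair m).1

/-- bounded integer sequences -/
def Bd (M : ℕ) : Set (ℕ → ℤ) := {k | ∀ n, |k n| ≤ (M : ℤ)}

lemma Bd_real {M : ℕ} {k : ℕ → ℤ} (hk : k ∈ Bd M) (n : ℕ) : |(k n : ℝ)| ≤ (M : ℝ) := by
  have := hk n
  rw [← Int.cast_abs]
  exact_mod_cast this

/-- the coding map -/
noncomputable def th (k : ℕ → ℤ) : ℝ := ∑' m : ℕ, (k (idx m) : ℝ) / (m.factorial : ℝ)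

lemma summable_of_bdd {c : ℕ → ℤ} {M : ℕ} (hc : c ∈ Bd M) :
    Summable (fun m : ℕ => (c m : ℝ) / (m.factorial : ℝ)) := by
  have h := (Real.summable_pow_div_factorial 1).mul_left (M : ℝ)
  refine Summable.of_norm_bounded h (fun m => ?_)
  rw [norm_div, Real.norm_eq_abs, Real.norm_of_nonneg (by positivity : (0:ℝ) ≤ (m.factorial : ℝ)),
    one_pow, mul_one_div]
  gcongr
  exact Bd_real hc m

lemma Bd_idx {k : ℕ → ℤ} {M : ℕ} (hk : k ∈ Bd M) : (fun m => k (idx m)) ∈ Bd M :=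
  fun m => hk (idx m)

/-- if `∑ c_m / m! = 0` with bounded integers `c_m`, then `c_m = 0` for all large `m` -/
lemma uniq {c : ℕ → ℤ} {M : ℕ} (hc : c ∈ Bd M)
    (h0 : ∑' m : ℕ, (c m : ℝ) / (m.factorial : ℝ) = 0) {N : ℕ} (hN : M + 2 ≤ N) : c N = 0 := by
  have hs := summable_of_bdd hc
  -- tails vanish
  have tail : ∀ N : ℕ, M + 2 ≤ N → ∑' m : ℕ, (c (m + N) : ℝ) / ((m + N).factorial : ℝ) = 0 := by
    intro N hN
    obtain ⟨K, rfl⟩ : ∃ K, N = K + 1 := ⟨N - 1, by omega⟩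
    set T : ℝ := ∑' m : ℕ, (c (m + (K + 1)) : ℝ) / ((m + (K + 1)).factorial : ℝ) with hT
    have hsum := hs.sum_add_tsum_nat_add (K + 1)
    rw [h0] at hsum
    -- the integer
    obtain ⟨z, hz⟩ : ∃ z : ℤ, (K.factorial : ℝ) *
        ∑ m ∈ Finset.range (K + 1), (c m : ℝ) / (m.factorial : ℝ) = z := by
      refine ⟨∑ m ∈ Finset.range (K + 1), c m * ((K.factorial / m.factorial : ℕ) : ℤ), ?_⟩
      rw [Finset.mul_sum, Int.cast_sum]
      apply Finset.sum_congr rfl
      intro m hm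
      have hm' : m ≤ K := by
        have := Finset.mem_range.1 hm
        omega
      obtain ⟨q, hq⟩ : m.factorial ∣ K.factorial := Nat.factorial_dvd_factorial hm'
      rw [Int.cast_mul, Int.cast_natCast, hq, Nat.mul_div_cancel_left _ (Nat.factorial_pos m)]
      push_cast
      have hf : (m.factorial : ℝ) ≠ 0 := by positivity
      field_simp
    have hTz : (K.factorial : ℝ) * T = ((-z : ℤ) : ℝ) := by
      push_cast
      rw [← hz, ← hT] at *
      have : T = -∑ m ∈ Finset.range (K + 1), (c m : ℝ) / (m.factorial : ℝ) := by linarith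
      rw [this]; ring
    -- the bound
    have hb : |T| ≤ (M : ℝ) / ((K + 1).factorial : ℝ) * (1 - 1 / ((K : ℝ) + 2))⁻¹ := by
      have hg := (hasSum_geometric_of_lt_one (r := 1 / ((K : ℝ) + 2)) (by positivity) (by
        rw [div_lt_one (by positivity)]
        have : (0 : ℝ) ≤ K := Nat.cast_nonneg K
        linarith)).mul_left ((M : ℝ) / ((K + 1).factorial : ℝ))
      rw [← Real.norm_eq_abs]
      refine tsum_of_norm_bounded hg (fun m => ?_)
      rw [norm_div, Real.norm_eq_abs,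
        Real.norm_of_nonneg (by positivity : (0:ℝ) ≤ ((m + (K + 1)).factorial : ℝ))]
      have h1 : ((K + 1).factorial : ℝ) * ((K : ℝ) + 2) ^ m ≤ ((m + (K + 1)).factorial : ℝ) := by
        have := Nat.factorial_mul_pow_le_factorial (m := K + 1) (n := m)
        rw [add_comm m (K + 1)]
        calc ((K + 1).factorial : ℝ) * ((K : ℝ) + 2) ^ m
            = (((K + 1).factorial * (K + 1 + 1) ^ m : ℕ) : ℝ) := by push_cast; ring
          _ ≤ _ := by exact_mod_cast this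
      calc |(c (m + (K + 1)) : ℝ)| / ((m + (K + 1)).factorial : ℝ)
          ≤ (M : ℝ) / (((K + 1).factorial : ℝ) * ((K : ℝ) + 2) ^ m) := by
            gcongr
            exact Bd_real hc _
        _ = (M : ℝ) / ((K + 1).factorial : ℝ) * (1 / ((K : ℝ) + 2)) ^ m := by
            rw [one_div, inv_pow]
            field_simp
    have hlt : |(K.factorial : ℝ) * T| < 1 := by
      rw [abs_mul, abs_of_nonneg (by positivity : (0:ℝ) ≤ (K.factorial : ℝ))]
      have hK : (M : ℝ) + 1 ≤ K := by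
        have : M + 1 ≤ K := by omega
        exact_mod_cast this
      have hM : (0 : ℝ) ≤ M := Nat.cast_nonneg M
      calc (K.factorial : ℝ) * |T|
          ≤ (K.factorial : ℝ) * ((M : ℝ) / ((K + 1).factorial : ℝ) *
            (1 - 1 / ((K : ℝ) + 2))⁻¹) := by gcongr
        _ = (M : ℝ) * ((K : ℝ) + 2) / ((K : ℝ) + 1) ^ 2 := by
            have h1 : (1 : ℝ) - 1 / ((K : ℝ) + 2) = ((K : ℝ) + 1) / ((K : ℝ) + 2) := by
              field_simp; ring
            have hf : (0:ℝ) < (K.factorial : ℝ) := by positivity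
            rw [h1, Nat.factorial_succ]
            push_cast
            field_simp
        _ < 1 := by
            rw [div_lt_one (by positivity)]
            nlinarith
    rw [hTz, ← Int.cast_abs] at hlt
    have hz0 : -z = 0 := by
      have : |(-z)| < 1 := by exact_mod_cast hlt
      exact Int.abs_lt_one_iff.1 this
    rw [hz0, Int.cast_zero] at hTz
    exact (mul_eq_zero.1 hTz).resolve_left (by positivity)
  have h1 := tail N hN
  have h2 := tail (N + 1) (by omega)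
  have hs' : Summable (fun m : ℕ => (c (m + N) : ℝ) / ((m + N).factorial : ℝ)) :=
    (summable_nat_add_iff N).2 hs
  rw [hs'.tsum_eq_zero_add] at h1
  simp only [zero_add] at h1
  have h3 : ∑' m : ℕ, (c (m + 1 + N) : ℝ) / ((m + 1 + N).factorial : ℝ) = 0 := by
    rw [← h2]
    congr 1
    ext m
    rw [add_assoc, add_comm 1 N]
  rw [h3, add_zero] at h1
  have h4 : (c N : ℝ) = 0 := by
    rcases div_eq_zero_iff.1 h1 with h | h
    · exact h
    · exact absurd h (by positivity)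
  exact_mod_cast h4

lemma th_add {k l : ℕ → ℤ} {M N : ℕ} (hk : k ∈ Bd M) (hl : l ∈ Bd N) :
    th (k + l) = th k + th l := by
  unfold th
  rw [← (summable_of_bdd (Bd_idx hk)).tsum_add (summable_of_bdd (Bd_idx hl))]
  congr 1
  ext m
  simp only [Pi.add_apply]
  push_cast
  ring

lemma th_neg (k : ℕ → ℤ) : th (-k) = -th k := by
  unfold th
  rw [← tsum_neg]
  congr 1
  ext m
  simp only [Pi.neg_apply]
  push_cast
  ring

lemma Bd_add {k l : ℕ → ℤ} {M N : ℕ} (hk : k ∈ Bd M) (hl : l ∈ Bd N) : k + l ∈ Bd (M + N) := by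
  intro n
  have h1 := hk n
  have h2 := hl n
  calc |(k + l) n| ≤ |k n| + |l n| := abs_add_le _ _
    _ ≤ ((M + N : ℕ) : ℤ) := by push_cast; linarith

lemma Bd_neg {k : ℕ → ℤ} {M : ℕ} (hk : k ∈ Bd M) : -k ∈ Bd M := by
  intro n
  simpa using hk n

lemma th_eq_zero {k : ℕ → ℤ} {M : ℕ} (hk : k ∈ Bd M) (h : th k = 0) : k = 0 := by
  ext n
  -- choose a large `m` with `idx m = n`
  have h1 := uniq (Bd_idx hk) h (N := Nat.pair n (M + 2)) (Nat.right_le_pair n (M + 2))
  simpa [idx] using h1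

lemma th_inj {k l : ℕ → ℤ} {M N : ℕ} (hk : k ∈ Bd M) (hl : l ∈ Bd N) (h : th k = th l) :
    k = l := by
  have h1 : th (k + -l) = 0 := by
    rw [th_add hk (Bd_neg hl), th_neg, h]; ring
  have h2 := th_eq_zero (Bd_add hk (Bd_neg hl)) h1
  rw [← sub_eq_add_neg] at h2
  exact sub_eq_zero.1 h2

/-- the logarithm of the modulus -/
noncomputable def gg (k : ℕ → ℤ) : ℝ := ∑' n : ℕ, (k (n + 1) : ℝ) / 2 ^ n

lemma summable_gg {k : ℕ → ℤ} {M : ℕ} (hk : k ∈ Bd M) :
    Summable (fun n : ℕ => (k (n + 1) : ℝ) / 2 ^ n) := by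
  have h := summable_geometric_two.mul_left (M : ℝ)
  refine Summable.of_norm_bounded h (fun m => ?_)
  rw [norm_div, Real.norm_eq_abs, Real.norm_of_nonneg (by positivity : (0:ℝ) ≤ 2 ^ m),
    one_div, inv_pow, ← div_eq_mul_inv]
  gcongr
  exact Bd_real hk _

lemma gg_add {k l : ℕ → ℤ} {M N : ℕ} (hk : k ∈ Bd M) (hl : l ∈ Bd N) :
    gg (k + l) = gg k + gg l := by
  unfold gg
  rw [← (summable_gg hk).tsum_add (summable_gg hl)]
  congr 1
  ext m
  simp only [Pi.add_apply]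
  push_cast
  ring

/-- every real number is `gg k` for a bounded `k` with prescribed `k 0` -/
lemma gg_surj (y : ℝ) (a : ℤ) : ∃ (M : ℕ) (k : ℕ → ℤ), k ∈ Bd M ∧ k 0 = a ∧ gg k = y := by
  -- binary digits
  let d : ℕ → ℤ := fun n => match n with
    | 0 => ⌊y⌋
    | n + 1 => ⌊2 ^ (n + 1) * y⌋ - 2 * ⌊2 ^ n * y⌋
  let k : ℕ → ℤ := fun n => match n with
    | 0 => a
    | n + 1 => d n
  have hd : ∀ n, |d (n + 1)| ≤ 1 := by
    intro n
    show |⌊2 ^ (n + 1) * y⌋ - 2 * ⌊2 ^ n * y⌋| ≤ 1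
    have h1 := Int.floor_le (2 ^ (n + 1) * y)
    have h2 := Int.lt_floor_add_one (2 ^ (n + 1) * y)
    have h3 := Int.floor_le (2 ^ n * y)
    have h4 := Int.lt_floor_add_one (2 ^ n * y)
    have e : (2 : ℝ) ^ (n + 1) * y = 2 * (2 ^ n * y) := by ring
    rw [e] at h1 h2 ⊢
    set A := ⌊2 * (2 ^ n * y)⌋
    set B := ⌊2 ^ n * y⌋
    have h5 : (A : ℝ) < 2 * B + 2 := by linarith
    have h6 : (2 * B : ℝ) - 1 < A := by linarith
    have h5' : A < 2 * B + 2 := by exact_mod_cast h5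
    have h6' : 2 * B - 1 < A := by exact_mod_cast h6
    rw [abs_le]
    constructor <;> omega
  have hk : k ∈ Bd (a.natAbs + ⌊y⌋.natAbs + 1) := by
    intro n
    have p1 := abs_nonneg a
    have p2 := abs_nonneg ⌊y⌋
    rcases n with _ | _ | n
    · show |a| ≤ _
      push_cast
      rw [Int.abs_eq_natAbs]
      omega
    · show |⌊y⌋| ≤ _
      push_cast
      rw [Int.abs_eq_natAbs]
      omega
    · have := hd n
      show |d (n + 1)| ≤ _
      push_cast
      omega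
  refine ⟨_, k, hk, rfl, ?_⟩
  have hs := summable_gg hk
  have hpart : ∀ N : ℕ, ∑ n ∈ Finset.range (N + 1), (k (n + 1) : ℝ) / 2 ^ n =
      (⌊2 ^ N * y⌋ : ℝ) / 2 ^ N := by
    intro N
    induction N with
    | zero =>
      simp only [zero_add, Finset.range_one, Finset.sum_singleton, pow_zero, div_one, one_mul]
      rfl
    | succ N ih =>
      rw [Finset.sum_range_succ, ih]
      have e : (k (N + 1 + 1) : ℝ) = (⌊2 ^ (N + 1) * y⌋ : ℝ) - 2 * (⌊2 ^ N * y⌋ : ℝ) := by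
        show ((⌊2 ^ (N + 1) * y⌋ - 2 * ⌊2 ^ N * y⌋ : ℤ) : ℝ) = _
        push_cast; ring
      rw [e]
      field_simp
      ring
  have hlim : Tendsto (fun N : ℕ => (⌊2 ^ N * y⌋ : ℝ) / 2 ^ N) atTop (𝓝 y) := by
    rw [Metric.tendsto_atTop]
    intro ε hε
    obtain ⟨N0, hN0⟩ := exists_pow_lt_of_lt_one hε (by norm_num : (1 / 2 : ℝ) < 1)
    refine ⟨N0, fun N hN => ?_⟩
    rw [Real.dist_eq]
    have h1 := Int.floor_le (2 ^ N * y)
    have h2 := Int.lt_floor_add_one (2 ^ N * y)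
    have h3 : (0 : ℝ) < 2 ^ N := by positivity
    have h4 : |(⌊2 ^ N * y⌋ : ℝ) / 2 ^ N - y| ≤ (1 / 2) ^ N := by
      have e : (⌊2 ^ N * y⌋ : ℝ) / 2 ^ N - y = ((⌊2 ^ N * y⌋ : ℝ) - 2 ^ N * y) / 2 ^ N := by
        field_simp
      rw [e, abs_div, abs_of_pos h3, one_div, inv_pow, inv_eq_one_div]
      gcongr
      rw [abs_le]
      constructor <;> linarith
    calc _ ≤ (1 / 2 : ℝ) ^ N := h4
      _ ≤ (1 / 2 : ℝ) ^ N0 := pow_le_pow_of_le_one (by norm_num) (by norm_num) hN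
      _ < ε := hN0
  have h1 := hs.hasSum.tendsto_sum_nat
  have h2 := h1.comp (tendsto_add_atTop_nat 1)
  have h3 : Tendsto (fun N : ℕ => (⌊2 ^ N * y⌋ : ℝ) / 2 ^ N) atTop
      (𝓝 (∑' n : ℕ, (k (n + 1) : ℝ) / 2 ^ n)) := by
    refine h2.congr (fun N => ?_)
    exact hpart N
  exact tendsto_nhds_unique h3 hlim

lemma isCompact_Bd (M : ℕ) : IsCompact (Bd M) := by
  have : Bd M = Set.pi univ (fun _ : ℕ => Set.Icc (-(M : ℤ)) M) := by
    ext k
    simp only [Bd, Set.mem_ofPred_eq, Set.mem_pi, Set.mem_univ, true_imp_iff, Set.mem_Icc, abs_le]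
  rw [this]
  exact isCompact_univ_pi (fun _ => (Set.finite_Icc _ _).isCompact)

lemma cont_coord (n : ℕ) : Continuous (fun k : ℕ → ℤ => (k n : ℝ)) :=
  (continuous_of_discreteTopology (f := fun z : ℤ => (z : ℝ))).comp (continuous_apply n)

lemma continuousOn_th (M : ℕ) : ContinuousOn th (Bd M) := by
  unfold th
  refine continuousOn_tsum (u := fun m : ℕ => (M : ℝ) * (1 ^ m / (m.factorial : ℝ)))
    (fun m => ?_) ((Real.summable_pow_div_factorial 1).mul_left (M : ℝ)) (fun m k hk => ?_)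
  · exact ((cont_coord (idx m)).div_const _).continuousOn
  · rw [norm_div, Real.norm_eq_abs,
      Real.norm_of_nonneg (by positivity : (0:ℝ) ≤ (m.factorial : ℝ)), one_pow, mul_one_div]
    gcongr
    exact Bd_real hk _

lemma continuousOn_gg (M : ℕ) : ContinuousOn gg (Bd M) := by
  unfold gg
  refine continuousOn_tsum (u := fun m : ℕ => (M : ℝ) * (1 / 2) ^ m)
    (fun m => ?_) (summable_geometric_two.mul_left (M : ℝ)) (fun m k hk => ?_)
  · exact ((cont_coord (m + 1)).div_const _).continuousOn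
  · rw [norm_div, Real.norm_eq_abs, Real.norm_of_nonneg (by positivity : (0:ℝ) ≤ 2 ^ m),
      one_div, inv_pow, ← div_eq_mul_inv]
    gcongr
    exact Bd_real hk _

/-- the multiplicative function of the code -/
noncomputable def FF (k : ℕ → ℤ) : ℝ := (-1) ^ (k 0) * Real.exp (gg k)

lemma FF_ne (k : ℕ → ℤ) : FF k ≠ 0 := by
  unfold FF
  apply mul_ne_zero (zpow_ne_zero _ (by norm_num)) (Real.exp_ne_zero _)

lemma FF_add {k l : ℕ → ℤ} {M N : ℕ} (hk : k ∈ Bd M) (hl : l ∈ Bd N) :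
    FF (k + l) = FF k * FF l := by
  unfold FF
  rw [gg_add hk hl, Real.exp_add, Pi.add_apply, zpow_add₀ (by norm_num)]
  ring

lemma continuousOn_FF (M : ℕ) : ContinuousOn FF (Bd M) := by
  unfold FF
  apply ContinuousOn.mul _ (Real.continuous_exp.comp_continuousOn (continuousOn_gg M))
  exact ((continuous_of_discreteTopology (f := fun z : ℤ => (-1 : ℝ) ^ z)).comp
    (continuous_apply 0)).continuousOn

open Classical in
/-- the function -/
noncomputable def ff (x : ℝ) : ℝ :=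
  if h : ∃ k : ℕ → ℤ, (∃ M, k ∈ Bd M) ∧ th k = x then FF h.choose else 0

lemma ff_th {k : ℕ → ℤ} {M : ℕ} (hk : k ∈ Bd M) : ff (th k) = FF k := by
  have h : ∃ l : ℕ → ℤ, (∃ M, l ∈ Bd M) ∧ th l = th k := ⟨k, ⟨M, hk⟩, rfl⟩
  unfold ff
  rw [dif_pos h]
  obtain ⟨⟨N, hN⟩, h2⟩ := h.choose_spec
  rw [th_inj hN hk h2]

lemma ff_not {x : ℝ} (h : ¬ ∃ k : ℕ → ℤ, (∃ M, k ∈ Bd M) ∧ th k = x) : ff x = 0 := by
  unfold ff
  rw [dif_neg h]

/-- the functional equation -/
lemma ff_add {t : ℕ → ℤ} {M : ℕ} (ht : t ∈ Bd M) (x : ℝ) : ff (x + th t) = FF t * ff x := by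
  by_cases h : ∃ k : ℕ → ℤ, (∃ M, k ∈ Bd M) ∧ th k = x
  · obtain ⟨k, ⟨N, hk⟩, rfl⟩ := h
    rw [← th_add hk ht, ff_th (Bd_add hk ht), ff_th hk, FF_add hk ht]
    ring
  · rw [ff_not h, mul_zero]
    apply ff_not
    rintro ⟨k, ⟨N, hk⟩, hx⟩
    apply h
    refine ⟨k + -t, ⟨_, Bd_add hk (Bd_neg ht)⟩, ?_⟩
    rw [th_add hk (Bd_neg ht), th_neg, hx]
    ring

lemma measurable_ff : Measurable ff := by
  apply measurable_of_isClosed
  intro C hC
  -- the part in the group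
  have h1 : ∀ M : ℕ, IsCompact (th '' (Bd M ∩ FF ⁻¹' C)) := by
    intro M
    have hcl : IsCompact (Bd M ∩ FF ⁻¹' C) := by
      apply (isCompact_Bd M).of_isClosed_subset _ inter_subset_left
      exact (continuousOn_FF M).preimage_isClosed_of_isClosed (isCompact_Bd M).isClosed hC
    exact hcl.image_of_continuousOn ((continuousOn_th M).mono inter_subset_left)
  have h2 : ∀ M : ℕ, IsCompact (th '' (Bd M)) := fun M =>
    (isCompact_Bd M).image_of_continuousOn (continuousOn_th M)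
  have hpre : ff ⁻¹' C = (⋃ M : ℕ, th '' (Bd M ∩ FF ⁻¹' C)) ∪
      ((⋃ M : ℕ, th '' (Bd M))ᶜ ∩ {_x : ℝ | (0 : ℝ) ∈ C}) := by
    ext x
    constructor
    · intro hx
      by_cases h : ∃ k : ℕ → ℤ, (∃ M, k ∈ Bd M) ∧ th k = x
      · left
        obtain ⟨k, ⟨M, hk⟩, rfl⟩ := h
        refine mem_iUnion.2 ⟨M, k, ⟨hk, ?_⟩, rfl⟩
        rw [mem_preimage, ff_th hk] at hx
        exact hx
      · right
        refine ⟨?_, ?_⟩
        · intro hx'
          obtain ⟨M, k, hk, hk'⟩ := mem_iUnion.1 hx'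
          exact h ⟨k, ⟨M, hk⟩, hk'⟩
        · rw [mem_preimage, ff_not h] at hx
          exact hx
    · rintro (hx | ⟨hx, hx0⟩)
      · obtain ⟨M, k, ⟨hk, hkC⟩, rfl⟩ := mem_iUnion.1 hx
        rw [mem_preimage, ff_th hk]
        exact hkC
      · rw [mem_preimage, ff_not]
        · exact hx0
        · rintro ⟨k, ⟨M, hk⟩, hk'⟩
          exact hx (mem_iUnion.2 ⟨M, k, hk, hk'⟩)
  rw [hpre]
  apply MeasurableSet.union
  · exact MeasurableSet.iUnion (fun M => (h1 M).isClosed.measurableSet)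
  · apply MeasurableSet.inter
    · exact (MeasurableSet.iUnion (fun M => (h2 M).isClosed.measurableSet)).compl
    · by_cases h : (0 : ℝ) ∈ C <;> simp [h]

end Pool.Agent.R231.VR
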